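import Pool.Agent.Helper65.TNL.Indep
import Pool.Agent.Helper33.SS.Emb
import Pool.Agent.Helper37.ReturnSet

/-!
# Skolem's theorem for exponential polynomials with roots in a torsion free group
-/

set_option autoImplicit false

namespace Pool.Agent.Helper65.TNL

open Finset

/-- The zeros of an exponential polynomial: if there are infinitely many, they contain a
progression. -/
theorem exists_progression {K : Type*} [Field K] [CharZero K] {ι : Type} [Fintype ι]
    (c : ι → K) (a : ι → ℕ) (μ : ι → Kˣ)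
    (hinf : {s : ℕ | ∑ i, c i * ((s : K) ^ a i * (μ i : K) ^ s) = 0}.Infinite) :
    ∃ N : ℕ, 0 < N ∧ ∃ t : ℕ, ∀ m : ℕ,
      ∑ i, c i * (((N * m + t : ℕ) : K) ^ a i * (μ i : K) ^ (N * m + t)) = 0 := by
  classical
  -- the field generated by all the constants
  set T : Finset K := (univ.image c) ∪ (univ.image fun i => (μ i : K)) ∪
    (univ.image fun i => ((μ i)⁻¹ : Kˣ).val) with hT
  set K' : IntermediateField ℚ K := IntermediateField.adjoin ℚ (T : Set K) with hK'
  have hfg : (⊤ : IntermediateField ℚ K').FG := by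
    have h1 : K'.FG := ⟨T, rfl⟩
    exact (IntermediateField.fg_top_iff).2 (IntermediateField.essFiniteType_iff.2 h1)
  have hmem : ∀ x ∈ T, x ∈ K' := fun x hx => IntermediateField.subset_adjoin ℚ _ hx
  have hc : ∀ i, c i ∈ K' := fun i => hmem _ (by
    rw [hT]; exact mem_union_left _ (mem_union_left _ (mem_image_of_mem _ (mem_univ i))))
  have hμ : ∀ i, (μ i : K) ∈ K' := fun i => hmem _ (by
    rw [hT]
    exact mem_union_left _ (mem_union_right _ (mem_image_of_mem (fun i => (μ i : K)) (mem_univ i))))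
  set c' : ι → K' := fun i => ⟨c i, hc i⟩ with hc'
  set μ' : ι → K' := fun i => ⟨(μ i : K), hμ i⟩ with hμ'
  have hne : ∀ i, μ' i ≠ 0 := by
    intro i h
    exact (μ i).ne_zero (congrArg Subtype.val h)
  obtain ⟨p, -, hp, φ, hφ⟩ := Pool.Agent.Helper33.SS.exists_padic_int hfg
    ((univ.image μ') ∪ (univ.image fun i => (μ' i)⁻¹)) 0
  have := Fact.mk hp
  have h1 : ∀ i, ‖φ (μ' i)‖ ≤ 1 := fun i => hφ _ (mem_union_left _ (mem_image_of_mem μ' (mem_univ i)))
  have h2 : ∀ i, ‖φ (μ' i)⁻¹‖ ≤ 1 := fun i =>
    hφ _ (mem_union_right _ (mem_image_of_mem (fun i => (μ' i)⁻¹) (mem_univ i)))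
  set u : ι → ℤ_[p] := fun i => ⟨φ (μ' i), h1 i⟩ with hu
  set w : ι → ℤ_[p] := fun i => ⟨φ (μ' i)⁻¹, h2 i⟩ with hw
  have huw : ∀ i, u i * w i = 1 := by
    intro i
    apply PadicInt.ext
    rw [PadicInt.coe_mul, PadicInt.coe_one]
    show φ (μ' i) * φ (μ' i)⁻¹ = 1
    rw [← map_mul, mul_inv_cancel₀ (hne i), map_one]
  have hunit : ∀ i, IsUnit (u i) := fun i => IsUnit.of_mul_eq_one _ (huw i)
  -- the polynomial map
  set F : Option ι → MvPolynomial (Option ι) ℤ_[p] := fun j => match j with
    | none => MvPolynomial.X none + 1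
    | some i => MvPolynomial.C (u i) * MvPolynomial.X (some i) with hF
  set x : Option ι → ℤ_[p] := fun j => match j with
    | none => 0
    | some _ => 1 with hx
  have horb : ∀ n, (Pool.Agent.Helper37.step F)^[n] x = fun j => match j with
      | none => (n : ℤ_[p])
      | some i => u i ^ n := by
    intro n
    induction n with
    | zero =>
      funext j
      cases j with
      | none => simp [hx]
      | some i => simp [hx]
    | succ n ih =>
      rw [Function.iterate_succ_apply', ih]
      funext j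
      cases j with
      | none => simp [Pool.Agent.Helper37.step, hF]
      | some i => simp [Pool.Agent.Helper37.step, hF, pow_succ, mul_comm]
  have hjac : ∀ y, Pool.Agent.Helper37.jac F y = Matrix.diagonal (fun j => match j with
      | none => (1 : ℤ_[p])
      | some i => u i) := by
    intro y
    ext j l
    cases j with
    | none =>
      cases l with
      | none => simp [Pool.Agent.Helper37.jac, hF, MvPolynomial.pderiv_X]
      | some i => simp [Pool.Agent.Helper37.jac, hF, MvPolynomial.pderiv_X]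
    | some i =>
      cases l with
      | none => simp [Pool.Agent.Helper37.jac, hF, MvPolynomial.pderiv_X]
      | some i' =>
        by_cases hii : i' = i
        · subst hii
          simp [Pool.Agent.Helper37.jac, hF, MvPolynomial.pderiv_X]
        · have h3 : (some i : Option ι) ≠ some i' := fun h => hii (Option.some_inj.1 h).symm
          simp [Pool.Agent.Helper37.jac, hF, MvPolynomial.pderiv_X, h3, Matrix.diagonal_apply_ne]
  obtain ⟨T', hT'⟩ := Pool.Agent.Helper37.returnSet_progressions (R := ℤ_[p]) p hp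
    (by rw [IsLocalRing.mem_maximalIdeal]; exact PadicInt.p_nonunit)
    (L := ℚ_[p]) (FaithfulSMul.algebraMap_injective ℤ_[p] ℚ_[p]) F x
    (by
      intro n
      rw [hjac, Matrix.det_diagonal]
      rw [IsUnit.prod_univ_iff]
      intro j
      cases j with
      | none => exact isUnit_one
      | some i => exact hunit i)
    {∑ i, MvPolynomial.C (φ (c' i)) * (MvPolynomial.X none ^ a i * MvPolynomial.X (some i))}
  have hset : {s : ℕ | ∑ i, c i * ((s : K) ^ a i * (μ i : K) ^ s) = 0}
      = {n : ℕ | ∃ p ∈ T', ∃ m : ℕ, n = p.1 * m + p.2} := by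
    rw [← hT']
    ext s
    simp only [Set.mem_ofPred_eq, Set.mem_singleton_iff, forall_eq]
    have e1 : (MvPolynomial.eval fun i => algebraMap ℤ_[p] ℚ_[p]
          ((Pool.Agent.Helper37.step F)^[s] x i))
          (∑ i, MvPolynomial.C (φ (c' i)) * (MvPolynomial.X none ^ a i * MvPolynomial.X (some i)))
        = φ (∑ i, c' i * ((s : K') ^ a i * μ' i ^ s)) := by
      rw [horb, map_sum, map_sum]
      refine Finset.sum_congr rfl fun i _ => ?_
      simp only [map_mul, map_pow, MvPolynomial.eval_C, MvPolynomial.eval_X, map_natCast]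
      rfl
    rw [e1, map_eq_zero]
    have e2 : ((∑ i, c' i * ((s : K') ^ a i * μ' i ^ s) : K') : K)
        = ∑ i, c i * ((s : K) ^ a i * (μ i : K) ^ s) := by
      push_cast
      rfl
    rw [← e2]
    exact ZeroMemClass.coe_eq_zero
  rw [hset] at hinf
  -- an infinite progression
  have h3 : ∃ q ∈ T', 0 < q.1 := by
    by_contra hcon
    push Not at hcon
    apply hinf
    refine Set.Finite.subset (T'.image Prod.snd).finite_toSet ?_
    rintro n ⟨q, hq, m, rfl⟩
    have h4 : q.1 = 0 := Nat.le_zero.1 (hcon q hq)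
    rw [h4, zero_mul, zero_add]
    exact mem_coe.2 (mem_image_of_mem _ hq)
  obtain ⟨q, hq, hq0⟩ := h3
  refine ⟨q.1, hq0, q.2, fun m => ?_⟩
  have h4 : q.1 * m + q.2 ∈ {s : ℕ | ∑ i, c i * ((s : K) ^ a i * (μ i : K) ^ s) = 0} := by
    rw [hset]
    exact ⟨q, hq, m, rfl⟩
  exact h4

/-- **Skolem's theorem.** An exponential polynomial with roots in a torsion free group and with
infinitely many zeros is zero. -/
theorem skolem {k : Type*} [Field k] [CharZero k] {M : Subgroup kˣ} (hM : TorFree M)
    {f : ℕ → k} (hf : f ∈ EP M) (hinf : {s : ℕ | f s = 0}.Infinite) : f = 0 := by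
  classical
  -- write `f` as a finite sum of monomials
  have h1 : ∃ (n : ℕ) (c : Fin n → k) (a : Fin n → ℕ) (μ : Fin n → kˣ),
      ∀ s : ℕ, f s = ∑ i, c i * ((s : k) ^ a i * (μ i : k) ^ s) := by
    clear hinf
    induction hf using Submodule.span_induction with
    | mem x hx =>
      obtain ⟨a, μ, hμ, rfl⟩ := hx
      exact ⟨1, fun _ => 1, fun _ => a, fun _ => μ, fun s => by simp [mono]⟩
    | zero => exact ⟨0, fun _ => 0, fun _ => 0, fun _ => 1, fun s => by simp⟩
    | add y z _ _ hy hz =>
      obtain ⟨n, c, a, μ, h⟩ := hy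
      obtain ⟨n', c', a', μ', h'⟩ := hz
      refine ⟨n + n', Fin.append c c', Fin.append a a', Fin.append μ μ', fun s => ?_⟩
      rw [Pi.add_apply, h, h', Fin.sum_univ_add]
      simp
    | smul b y _ hy =>
      obtain ⟨n, c, a, μ, h⟩ := hy
      refine ⟨n, fun i => b * c i, a, μ, fun s => ?_⟩
      rw [Pi.smul_apply, h, smul_eq_mul, Finset.mul_sum]
      exact Finset.sum_congr rfl fun i _ => by ring
  obtain ⟨n, c, a, μ, h⟩ := h1
  obtain ⟨N, hN, t, hNt⟩ := exists_progression c a μ (by
    refine hinf.mono fun s hs => ?_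
    rw [Set.mem_ofPred_eq, ← h s]
    exact hs)
  refine eq_zero_of_progression hM hf hN t fun m => ?_
  rw [h]
  exact hNt m

/-- The same for sequences which are eventually equal to exponential polynomials. -/
theorem skolem_eventually {k : Type*} [Field k] [CharZero k] {M : Subgroup kˣ} (hM : TorFree M)
    {f : ℕ → k} (hf : f ∈ EPe M) (hinf : {s : ℕ | f s = 0}.Infinite) :
    ∃ s₀, ∀ s, s₀ ≤ s → f s = 0 := by
  obtain ⟨g, hg, s₀, h⟩ := hf
  refine ⟨s₀, fun s hs => ?_⟩
  have h1 : g = 0 := by
    refine skolem hM hg ?_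
    have h2 : ({s : ℕ | f s = 0} \ {s | s < s₀}).Infinite :=
      hinf.sdiff (Set.finite_lt_nat s₀)
    refine h2.mono ?_
    rintro s ⟨hs1, hs2⟩
    have h3 : s₀ ≤ s := not_lt.1 hs2
    rw [Set.mem_ofPred_eq, ← h s h3]
    exact hs1
  rw [h s hs, h1]
  rfl

end Pool.Agent.Helper65.TNL
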