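import Pool.Agent.Helper89.TNL.Defs
import Pool.Agent.Helper65.TNL.Skolem

/-!
# The two definitions of exponential polynomials agree
-/

set_option autoImplicit false

namespace Pool.Agent.Helper65.TNL

open Pool.Agent.Helper89.TNL

variable {k : Type} [Field k] {G : Subgroup kˣ}

/-- The two definitions of exponential polynomials agree. -/
theorem mem_epol_iff {f : ℕ → k} : f ∈ EPol k G ↔ f ∈ EP G := by
  constructor
  · intro hf
    induction hf using Algebra.adjoin_induction with
    | mem x hx =>
      rcases hx with hx | ⟨μ, hμ, rfl⟩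
      · rw [Set.mem_singleton_iff] at hx
        rw [hx]
        exact id_mem_EP
      · exact pow_mem_EP hμ
    | algebraMap c =>
      have h := const_mem_EP (M := G) c
      exact h
    | add x y _ _ hx hy => exact Submodule.add_mem _ hx hy
    | mul x y _ _ hx hy => exact mul_mem_EP hx hy
  · intro hf
    induction hf using Submodule.span_induction with
    | mem x hx =>
      obtain ⟨a, μ, hμ, rfl⟩ := hx
      have h1 : (fun t : ℕ => (t : k)) ∈ EPol k G :=
        Algebra.subset_adjoin (Or.inl rfl)
      have h2 : (fun t : ℕ => ((μ : kˣ) : k) ^ t) ∈ EPol k G :=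
        Algebra.subset_adjoin (Or.inr ⟨μ, hμ, rfl⟩)
      exact mul_mem (pow_mem h1 a) h2
    | zero => exact (EPol k G).zero_mem
    | add x y _ _ hx hy => exact add_mem hx hy
    | smul c x _ hx => exact (EPol k G).smul_mem hx c

/-- The same for a recursion which holds from some time on: `v` agrees with exponential
polynomials from this time on. -/
theorem epol_solve_late [IsAlgClosed k] [CharZero k] {α : Type} [Fintype α] [DecidableEq α]
    (M : Matrix α α k) (hM : EigIn G M) {f v : α → ℕ → k} (hf : ∀ a, f a ∈ EPol k G) {T : ℕ}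
    (hv : ∀ t, T ≤ t → ∀ a, v a (t + 1) = ∑ b, M a b * v b t + f a t) :
    ∃ w : α → ℕ → k, (∀ a, w a ∈ EPol k G) ∧ ∀ t, T ≤ t → ∀ a, v a t = w a t := by
  have hroot : ∀ α' ∈ M.charpoly.roots, Root G α' := by
    intro r hr
    obtain ⟨u, hu, hur⟩ := hM r (Polynomial.isRoot_of_mem_roots hr)
    exact Or.inr ⟨u, hu, hur⟩
  -- the solution with exponential polynomials from some time on
  have h1 := solve M hroot (fun t a => v a t) (fun t a => f a t)
    (fun a => EP_le_EPe (mem_epol_iff.1 (hf a))) T (by
      intro s hs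
      funext a
      rw [hv s hs a, Pi.add_apply, Matrix.mulVec, dotProduct])
  choose g hg s₀ hs₀' using h1
  have hs₀ : ∀ (i : α) (s : ℕ), s₀ i ≤ s → v i s = g i s := hs₀'
  set S := Finset.univ.sup s₀ with hS
  have hle : ∀ a, s₀ a ≤ S := fun a => Finset.le_sup (f := s₀) (Finset.mem_univ a)
  -- the sequences `g` satisfy the recursion everywhere
  refine ⟨g, fun a => mem_epol_iff.2 (hg a), ?_⟩
  have hrec : ∀ t a, g a (t + 1) = ∑ b, M a b * g b t + f a t := by
    intro t a
    have hz : shift (g a) - (∑ b, M a b • g b) - f a ∈ EP G :=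
      Submodule.sub_mem _ (Submodule.sub_mem _ (shift_mem_EP (hg a))
        (Submodule.sum_mem _ fun b _ => Submodule.smul_mem _ _ (hg b))) (mem_epol_iff.1 (hf a))
    have h2 : ∀ s, max S T ≤ s → (shift (g a) - (∑ b, M a b • g b) - f a) s = 0 := by
      intro s hs
      have hS' : S ≤ s := le_trans (le_max_left _ _) hs
      have h3 := hv s (le_trans (le_max_right _ _) hs) a
      rw [hs₀ a (s + 1) ((hle a).trans (hS'.trans (Nat.le_succ s)))] at h3
      rw [Pi.sub_apply, Pi.sub_apply, shift_apply, h3, Finset.sum_apply]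
      have h4 : ∑ b, M a b * v b s = ∑ b, (M a b • g b) s := by
        refine Finset.sum_congr rfl fun b _ => ?_
        rw [hs₀ b s ((hle b).trans hS'), Pi.smul_apply, smul_eq_mul]
      rw [h4]
      ring
    have h3 := eq_zero_of_eventually hz h2
    have h4 := congrFun h3 t
    rw [Pi.sub_apply, Pi.sub_apply, shift_apply, Finset.sum_apply, Pi.zero_apply] at h4
    have h5 : ∑ b, M a b * g b t = ∑ b, (M a b • g b) t := rfl
    rw [h5]
    linear_combination h4
  -- going down from the time `S`
  have hdet : M.det ≠ 0 := by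
    intro h0
    have h1 : M.charpoly.IsRoot 0 := by
      rw [Polynomial.IsRoot, Matrix.eval_charpoly]
      rw [map_zero, zero_sub, Matrix.det_neg, h0, mul_zero]
    obtain ⟨u, -, hu⟩ := hM 0 h1
    exact u.ne_zero hu
  have hdown : ∀ j, ∀ t, T ≤ t → S ≤ t + j → ∀ a, v a t = g a t := by
    intro j
    induction j with
    | zero => exact fun t _ hS' a => hs₀ a t ((hle a).trans hS')
    | succ j ih =>
      intro t ht hS'
      have h1 := ih (t + 1) (by omega) (by omega)
      have h2 : M.mulVec (fun b => v b t - g b t) = 0 := by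
        funext a
        rw [Matrix.mulVec, dotProduct, Pi.zero_apply]
        have h3 := hv t ht a
        rw [h1 a, hrec t a] at h3
        have h4 : ∑ b, M a b * (v b t - g b t) = ∑ b, M a b * v b t - ∑ b, M a b * g b t := by
          rw [← Finset.sum_sub_distrib]
          exact Finset.sum_congr rfl fun b _ => by ring
        rw [h4]
        linear_combination -h3
      have h3 := Matrix.eq_zero_of_mulVec_eq_zero hdet h2
      intro a
      exact sub_eq_zero.1 (congrFun h3 a)
  exact fun t ht a => hdown S t ht (by omega) a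

theorem epol_solve_vec [IsAlgClosed k] [CharZero k] {α : Type} [Fintype α] [DecidableEq α]
    (M : Matrix α α k) (hM : EigIn G M) {f v : α → ℕ → k} (hf : ∀ a, f a ∈ EPol k G)
    (hv : ∀ t a, v a (t + 1) = ∑ b, M a b * v b t + f a t) : ∀ a, v a ∈ EPol k G := by
  obtain ⟨w, hw, h⟩ := epol_solve_late M hM hf (T := 0) fun t _ => hv t
  intro a
  have h1 : v a = w a := funext fun t => h t (Nat.zero_le t) a
  rw [h1]
  exact hw a

/-- An exponential polynomial with roots in a torsion free group which vanishes along an
arithmetic progression is zero. -/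
theorem epol_zero_of_ap [CharZero k] (hG : TorsFree G) {f : ℕ → k} (hf : f ∈ EPol k G) {a q : ℕ}
    (hq : 0 < q) (h : ∀ t, f (a + q * t) = 0) : f = 0 :=
  eq_zero_of_progression hG (mem_epol_iff.1 hf) hq a fun m => by rw [add_comm]; exact h m

theorem epol_skolem [CharZero k] (hG : TorsFree G) {f : ℕ → k} (hf : f ∈ EPol k G)
    (hinf : {t | f t = 0}.Infinite) : f = 0 :=
  Pool.Agent.Helper65.TNL.skolem hG (mem_epol_iff.1 hf) hinf

end Pool.Agent.Helper65.TNL
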