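import Mathlib

/-!
# Exponential polynomials with roots in a group

`EP M` is the space of the sequences `s ↦ ∑ c * s ^ a * μ ^ s` with roots `μ` in the group `M`.
-/

set_option autoImplicit false

namespace Pool.Agent.Helper65.TNL

open Finset

variable {k : Type*} [Field k]

/-- The monomial sequence `s ↦ s ^ a * μ ^ s`. -/
def mono (a : ℕ) (μ : k) : ℕ → k := fun s => (s : k) ^ a * μ ^ s

/-- Exponential polynomials with roots in the group `M`. -/
def EP (M : Subgroup kˣ) : Submodule k (ℕ → k) :=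
  Submodule.span k {f | ∃ (a : ℕ) (μ : kˣ), μ ∈ M ∧ f = mono a (μ : k)}

/-- Sequences which are eventually equal to exponential polynomials with roots in `M`. -/
def EPe (M : Subgroup kˣ) : Submodule k (ℕ → k) where
  carrier := {f | ∃ g ∈ EP M, ∃ s₀, ∀ s, s₀ ≤ s → f s = g s}
  zero_mem' := ⟨0, Submodule.zero_mem _, 0, fun _ _ => rfl⟩
  add_mem' := by
    rintro f f' ⟨g, hg, s₀, h⟩ ⟨g', hg', s₀', h'⟩
    refine ⟨g + g', Submodule.add_mem _ hg hg', max s₀ s₀', fun s hs => ?_⟩
    rw [Pi.add_apply, Pi.add_apply, h s (le_trans (le_max_left _ _) hs),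
      h' s (le_trans (le_max_right _ _) hs)]
  smul_mem' := by
    rintro c f ⟨g, hg, s₀, h⟩
    refine ⟨c • g, Submodule.smul_mem _ c hg, s₀, fun s hs => ?_⟩
    rw [Pi.smul_apply, Pi.smul_apply, h s hs]

variable {M : Subgroup kˣ}

theorem mem_EPe_iff {f : ℕ → k} :
    f ∈ EPe M ↔ ∃ g ∈ EP M, ∃ s₀, ∀ s, s₀ ≤ s → f s = g s := Iff.rfl

theorem EP_le_EPe : EP M ≤ EPe M := fun f hf => ⟨f, hf, 0, fun _ _ => rfl⟩

theorem mono_mem (a : ℕ) {μ : kˣ} (hμ : μ ∈ M) : mono a (μ : k) ∈ EP M :=
  Submodule.subset_span ⟨a, μ, hμ, rfl⟩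

theorem pow_mem_EP {μ : kˣ} (hμ : μ ∈ M) : (fun s => (μ : k) ^ s) ∈ EP M := by
  have h := mono_mem 0 hμ
  have e : mono 0 (μ : k) = fun s => (μ : k) ^ s := by
    funext s
    simp [mono]
  rwa [e] at h

theorem const_mem_EP (c : k) : (fun _ => c) ∈ EP M := by
  have h := Submodule.smul_mem (EP M) c (pow_mem_EP (M := M) (one_mem M))
  have e : (c • fun s : ℕ => ((1 : kˣ) : k) ^ s) = fun _ => c := by
    funext s
    simp
  rwa [e] at h

theorem id_mem_EP : (fun s : ℕ => (s : k)) ∈ EP M := by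
  have h := mono_mem (M := M) 1 (one_mem M)
  have e : mono 1 ((1 : kˣ) : k) = fun s : ℕ => (s : k) := by
    funext s
    simp [mono]
  rwa [e] at h

theorem mul_mem_EP {f g : ℕ → k} (hf : f ∈ EP M) (hg : g ∈ EP M) :
    (fun s => f s * g s) ∈ EP M := by
  have key : f * g ∈ EP M := by
    induction hf using Submodule.span_induction with
    | mem x hx =>
      obtain ⟨a, μ, hμ, rfl⟩ := hx
      induction hg using Submodule.span_induction with
      | mem y hy =>
        obtain ⟨b, ν, hν, rfl⟩ := hy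
        have e : mono a (μ : k) * mono b (ν : k) = mono (a + b) ((μ * ν : kˣ) : k) := by
          funext s
          simp only [Pi.mul_apply, mono, Units.val_mul, pow_add, mul_pow]
          ring
        rw [e]
        exact mono_mem _ (mul_mem hμ hν)
      | zero => simp
      | add y z _ _ hy hz => rw [mul_add]; exact Submodule.add_mem _ hy hz
      | smul c y _ hy => rw [mul_smul_comm]; exact Submodule.smul_mem _ c hy
    | zero => simp
    | add y z _ _ hy hz => rw [add_mul]; exact Submodule.add_mem _ hy hz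
    | smul c y _ hy => rw [smul_mul_assoc]; exact Submodule.smul_mem _ c hy
  exact key

theorem mul_mem_EPe {f g : ℕ → k} (hf : f ∈ EPe M) (hg : g ∈ EPe M) :
    (fun s => f s * g s) ∈ EPe M := by
  obtain ⟨f', hf', s₀, h⟩ := hf
  obtain ⟨g', hg', s₁, h'⟩ := hg
  refine ⟨fun s => f' s * g' s, mul_mem_EP hf' hg', max s₀ s₁, fun s hs => ?_⟩
  simp only
  rw [h s (le_trans (le_max_left _ _) hs), h' s (le_trans (le_max_right _ _) hs)]

theorem sum_mem_EPe {ι : Type*} (t : Finset ι) (f : ι → ℕ → k) (h : ∀ i ∈ t, f i ∈ EPe M) :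
    (fun s => ∑ i ∈ t, f i s) ∈ EPe M := by
  have h1 := Submodule.sum_mem (EPe M) h
  have e : ∑ i ∈ t, f i = fun s => ∑ i ∈ t, f i s := by
    funext s
    simp
  rwa [e] at h1

theorem sum_mem_EP {ι : Type*} (t : Finset ι) (f : ι → ℕ → k) (h : ∀ i ∈ t, f i ∈ EP M) :
    (fun s => ∑ i ∈ t, f i s) ∈ EP M := by
  have h1 := Submodule.sum_mem (EP M) h
  have e : ∑ i ∈ t, f i = fun s => ∑ i ∈ t, f i s := by
    funext s
    simp
  rwa [e] at h1

theorem npow_mem_EP {f : ℕ → k} (hf : f ∈ EP M) (n : ℕ) : (fun s => f s ^ n) ∈ EP M := by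
  induction n with
  | zero =>
    have h := const_mem_EP (M := M) (1 : k)
    have e : (fun s => f s ^ 0) = fun _ => (1 : k) := by
      funext s
      simp
    rwa [e]
  | succ n ih =>
    have h := mul_mem_EP ih hf
    have e : (fun s => f s ^ (n + 1)) = fun s => f s ^ n * f s := by
      funext s
      rw [pow_succ]
    rwa [e]

theorem prod_mem_EP {ι : Type*} (t : Finset ι) (f : ι → ℕ → k) (h : ∀ i ∈ t, f i ∈ EP M) :
    (fun s => ∏ i ∈ t, f i s) ∈ EP M := by
  classical
  induction t using Finset.induction_on with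
  | empty => simpa using const_mem_EP (M := M) (1 : k)
  | insert a t ha ih =>
    have h1 := mul_mem_EP (h a (mem_insert_self _ _)) (ih fun i hi => h i (mem_insert_of_mem hi))
    have e : (fun s => ∏ i ∈ insert a t, f i s) = fun s => f a s * ∏ i ∈ t, f i s := by
      funext s
      rw [Finset.prod_insert ha]
    rwa [e]

/-- The values of a polynomial at exponential polynomials form an exponential polynomial. -/
theorem eval_mem_EP {σ : Type*} (P : MvPolynomial σ k) {f : ℕ → σ → k}
    (hf : ∀ i, (fun s => f s i) ∈ EP M) : (fun s => MvPolynomial.eval (f s) P) ∈ EP M := by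
  induction P using MvPolynomial.induction_on with
  | C c => simpa using const_mem_EP (M := M) c
  | add P Q hP hQ =>
    have e : (fun s => MvPolynomial.eval (f s) (P + Q))
        = (fun s => MvPolynomial.eval (f s) P) + fun s => MvPolynomial.eval (f s) Q := by
      funext s
      simp
    rw [e]
    exact Submodule.add_mem _ hP hQ
  | mul_X P i hP =>
    have e : (fun s => MvPolynomial.eval (f s) (P * MvPolynomial.X i))
        = fun s => MvPolynomial.eval (f s) P * f s i := by
      funext s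
      simp
    rw [e]
    exact mul_mem_EP hP (hf i)

/-- The shift operator. -/
def shift : (ℕ → k) →ₗ[k] (ℕ → k) where
  toFun f := fun s => f (s + 1)
  map_add' _ _ := rfl
  map_smul' _ _ := rfl

@[simp] theorem shift_apply (f : ℕ → k) (s : ℕ) : shift f s = f (s + 1) := rfl

/-- An affine function of the variable, to a power, times an exponential. -/
theorem affine_mem_EP (a : ℕ) (p q c : k) {μ : kˣ} (hμ : μ ∈ M) :
    (fun s : ℕ => c * (p * (s : k) + q) ^ a * (μ : k) ^ s) ∈ EP M := by
  have h1 : (fun s : ℕ => p * (s : k) + q) ∈ EP M := by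
    have h := Submodule.add_mem _ (Submodule.smul_mem (EP M) p (id_mem_EP (M := M)))
      (const_mem_EP (M := M) q)
    exact h
  have h2 := mul_mem_EP (npow_mem_EP h1 a) (pow_mem_EP hμ)
  have h3 := Submodule.smul_mem _ c h2
  have e : (c • fun s : ℕ => (p * (s : k) + q) ^ a * (μ : k) ^ s)
      = fun s : ℕ => c * (p * (s : k) + q) ^ a * (μ : k) ^ s := by
    funext s
    simp only [Pi.smul_apply, smul_eq_mul]
    ring
  rwa [e] at h3

/-- Exponential polynomials are stable under `s ↦ N * s + c`. -/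
theorem comp_mem_EP {f : ℕ → k} (hf : f ∈ EP M) (N c : ℕ) : (fun s => f (N * s + c)) ∈ EP M := by
  induction hf using Submodule.span_induction with
  | mem x hx =>
    obtain ⟨a, μ, hμ, rfl⟩ := hx
    have h := affine_mem_EP (M := M) a (N : k) (c : k) ((μ : k) ^ c) (pow_mem hμ N)
    have e : (fun s : ℕ => (μ : k) ^ c * ((N : k) * (s : k) + (c : k)) ^ a *
        ((μ ^ N : kˣ) : k) ^ s) = fun s => mono a (μ : k) (N * s + c) := by
      funext s
      simp only [mono, Nat.cast_add, Nat.cast_mul, Units.val_pow_eq_pow_val, pow_add, pow_mul]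
      ring
    rwa [e] at h
  | zero => exact Submodule.zero_mem _
  | add y z _ _ hy hz => exact Submodule.add_mem _ hy hz
  | smul c' y _ hy => exact Submodule.smul_mem _ c' hy

theorem shift_mem_EP {f : ℕ → k} (hf : f ∈ EP M) : shift f ∈ EP M := by
  have h := comp_mem_EP hf 1 1
  have e : (fun s => f (1 * s + 1)) = shift f := by
    funext s
    simp
  rwa [e] at h

/-- The shift is onto on exponential polynomials. -/
theorem exists_shift_eq {f : ℕ → k} (hf : f ∈ EP M) : ∃ g ∈ EP M, shift g = f := by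
  induction hf using Submodule.span_induction with
  | mem x hx =>
    obtain ⟨a, μ, hμ, rfl⟩ := hx
    refine ⟨_, affine_mem_EP (M := M) a 1 (-1) ((μ : k)⁻¹) hμ, ?_⟩
    funext s
    have hne : (μ : k) ≠ 0 := μ.ne_zero
    simp only [shift_apply, mono, Nat.cast_add, Nat.cast_one, pow_succ]
    field_simp
    ring
  | zero => exact ⟨0, Submodule.zero_mem _, map_zero _⟩
  | add y z _ _ hy hz =>
    obtain ⟨g, hg, rfl⟩ := hy
    obtain ⟨g', hg', rfl⟩ := hz
    exact ⟨g + g', Submodule.add_mem _ hg hg', map_add _ _ _⟩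
  | smul c y _ hy =>
    obtain ⟨g, hg, rfl⟩ := hy
    exact ⟨c • g, Submodule.smul_mem _ c hg, map_smul _ _ _⟩

theorem shift_mem_EPe_iff {f : ℕ → k} : shift f ∈ EPe M ↔ f ∈ EPe M := by
  constructor
  · rintro ⟨g, hg, s₀, h⟩
    obtain ⟨g', hg', rfl⟩ := exists_shift_eq hg
    refine ⟨g', hg', s₀ + 1, fun s hs => ?_⟩
    obtain ⟨t, rfl⟩ : ∃ t, s = t + 1 := ⟨s - 1, by omega⟩
    exact h t (by omega)
  · rintro ⟨g, hg, s₀, h⟩
    exact ⟨shift g, shift_mem_EP hg, s₀, fun s hs => h (s + 1) (by omega)⟩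

end Pool.Agent.Helper65.TNL
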