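import Pool.Agent.Helper65.TNL.Solve

/-!
# Independence of exponential polynomials
-/

set_option autoImplicit false

namespace Pool.Agent.Helper65.TNL

open Finset Polynomial

variable {k : Type*} [Field k] {M : Subgroup kˣ}

/-- An exponential polynomial is a finite sum of polynomials times exponentials. -/
theorem exists_poly {f : ℕ → k} (hf : f ∈ EP M) :
    ∃ (S : Finset kˣ) (P : kˣ → k[X]), (∀ μ ∈ S, μ ∈ M) ∧
      ∀ s : ℕ, f s = ∑ μ ∈ S, (P μ).eval (s : k) * (μ : k) ^ s := by
  classical
  induction hf using Submodule.span_induction with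
  | mem x hx =>
    obtain ⟨a, μ, hμ, rfl⟩ := hx
    refine ⟨{μ}, fun _ => X ^ a, fun ν hν => by rw [mem_singleton.1 hν]; exact hμ, fun s => ?_⟩
    rw [sum_singleton, eval_pow, eval_X]
    rfl
  | zero => exact ⟨∅, fun _ => 0, fun ν hν => by simp at hν, fun s => by simp⟩
  | add y z _ _ hy hz =>
    obtain ⟨S, P, hS, hP⟩ := hy
    obtain ⟨S', P', hS', hP'⟩ := hz
    refine ⟨S ∪ S', fun μ => (if μ ∈ S then P μ else 0) + (if μ ∈ S' then P' μ else 0),
      fun ν hν => ?_, fun s => ?_⟩
    · rcases mem_union.1 hν with h | h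
      · exact hS ν h
      · exact hS' ν h
    · rw [Pi.add_apply, hP, hP']
      have h1 : ∀ μ : kˣ, ((if μ ∈ S then P μ else 0) + (if μ ∈ S' then P' μ else 0)).eval (s : k)
            * (μ : k) ^ s
          = (if μ ∈ S then (P μ).eval (s : k) * (μ : k) ^ s else 0)
            + (if μ ∈ S' then (P' μ).eval (s : k) * (μ : k) ^ s else 0) := by
        intro μ
        split_ifs <;> simp [add_mul]
      rw [Finset.sum_congr rfl fun μ _ => h1 μ, Finset.sum_add_distrib, Finset.sum_ite_mem,
        Finset.sum_ite_mem, Finset.union_inter_cancel_left, Finset.union_inter_cancel_right]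
  | smul c y _ hy =>
    obtain ⟨S, P, hS, hP⟩ := hy
    refine ⟨S, fun μ => C c * P μ, hS, fun s => ?_⟩
    rw [Pi.smul_apply, hP, smul_eq_mul, Finset.mul_sum]
    refine Finset.sum_congr rfl fun μ _ => ?_
    rw [eval_mul, eval_C]
    ring

theorem poly_mem_gen (Q : k[X]) (ρ : k) :
    (fun s : ℕ => Q.eval (s : k) * ρ ^ s) ∈ Module.End.maxGenEigenspace (shift (k := k)) ρ := by
  have hm : ∀ a, mono a ρ ∈ Module.End.maxGenEigenspace (shift (k := k)) ρ := by
    intro a
    induction a using Nat.strong_induction_on with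
    | _ a ih =>
      have h1 : sub ρ (mono a ρ) ∈ Module.End.maxGenEigenspace (shift (k := k)) ρ := by
        rw [sub_mono, sub_self, zero_smul, zero_add]
        refine Submodule.smul_mem _ _ (Submodule.sum_mem _ fun b hb =>
          Submodule.smul_mem _ _ (ih b (mem_range.1 hb)))
      rw [Module.End.mem_maxGenEigenspace] at h1 ⊢
      obtain ⟨n, hn⟩ := h1
      refine ⟨n + 1, ?_⟩
      rw [pow_succ]
      exact hn
  have e : (fun s : ℕ => Q.eval (s : k) * ρ ^ s)
      = ∑ a ∈ range (Q.natDegree + 1), Q.coeff a • mono a ρ := by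
    funext s
    rw [Finset.sum_apply, eval_eq_sum_range, Finset.sum_mul]
    refine Finset.sum_congr rfl fun a _ => ?_
    rw [Pi.smul_apply, smul_eq_mul, mono]
    ring
  rw [e]
  exact Submodule.sum_mem _ fun a _ => Submodule.smul_mem _ _ (hm a)

/-- Polynomials times exponentials with distinct nonzero roots are independent. -/
theorem poly_indep [CharZero k] {ι : Type*} (S : Finset ι) (ρ : ι → k)
    (hρ : Set.InjOn ρ S) (hne : ∀ i ∈ S, ρ i ≠ 0) (Q : ι → k[X])
    (h : ∀ s : ℕ, ∑ i ∈ S, (Q i).eval (s : k) * ρ i ^ s = 0) : ∀ i ∈ S, Q i = 0 := by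
  classical
  have hind := (iSupIndep_iff_finsetSum_eq_zero_imp_eq_zero _).1
    (Module.End.independent_maxGenEigenspace (shift (k := k)))
  have h0 : ∀ i ∈ S, (fun s : ℕ => (Q i).eval (s : k) * ρ i ^ s) = 0 := by
    have h1 := hind (S.image ρ) (fun r => ∑ i ∈ S.filter (fun i => ρ i = r),
      fun s : ℕ => (Q i).eval (s : k) * ρ i ^ s) ?_ ?_
    · intro i hi
      have h2 := h1 (ρ i) (mem_image_of_mem ρ hi)
      have h3 : S.filter (fun j => ρ j = ρ i) = {i} := by
        ext j
        rw [mem_filter, mem_singleton]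
        constructor
        · rintro ⟨hj, hji⟩
          exact hρ hj hi hji
        · rintro rfl
          exact ⟨hi, rfl⟩
      rw [h3, sum_singleton] at h2
      exact h2
    · intro r _
      refine Submodule.sum_mem _ fun i hi => ?_
      rw [← (mem_filter.1 hi).2]
      exact poly_mem_gen (Q i) (ρ i)
    · rw [Finset.sum_fiberwise_of_maps_to (fun i hi => mem_image_of_mem ρ hi)]
      funext s
      rw [Finset.sum_apply]
      exact h s
  intro i hi
  have h1 : ∀ s : ℕ, (Q i).eval (s : k) = 0 := by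
    intro s
    have h2 := congrFun (h0 i hi) s
    exact (mul_eq_zero.1 h2).resolve_right (pow_ne_zero _ (hne i hi))
  refine Polynomial.eq_zero_of_infinite_isRoot _ (Set.Infinite.mono ?_
    (Set.infinite_range_of_injective (Nat.cast_injective (R := k))))
  rintro _ ⟨s, rfl⟩
  exact h1 s

/-- The group has no torsion. -/
def TorFree (M : Subgroup kˣ) : Prop := ∀ μ ∈ M, ∀ t : ℕ, 0 < t → μ ^ t = 1 → μ = 1

/-- An exponential polynomial is zero if it vanishes on the progression `N * m + c` and the group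
of the roots has no elements of order dividing `N`. -/
theorem eq_zero_aux [CharZero k] {N : ℕ} (hN : 0 < N) (hM : ∀ μ ∈ M, μ ^ N = 1 → μ = 1)
    {f : ℕ → k} (hf : f ∈ EP M) (c : ℕ) (h : ∀ m, f (N * m + c) = 0) : f = 0 := by
  classical
  obtain ⟨S, P, hS, hP⟩ := exists_poly hf
  have hN' : (N : k) ≠ 0 := Nat.cast_ne_zero.2 hN.ne'
  have hQ := poly_indep S (fun μ : kˣ => ((μ ^ N : kˣ) : k)) ?_ (fun μ _ => (μ ^ N : kˣ).ne_zero)
    (fun μ => C ((μ : k) ^ c) * (P μ).comp (C (N : k) * X + C (c : k))) ?_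
  · funext s
    rw [hP s]
    refine Finset.sum_eq_zero fun μ hμ => ?_
    have h1 := hQ μ hμ
    have h2 : (P μ).comp (C (N : k) * X + C (c : k)) = 0 := by
      rcases mul_eq_zero.1 h1 with h3 | h3
      · rw [C_eq_zero] at h3
        exact absurd h3 (pow_ne_zero _ μ.ne_zero)
      · exact h3
    have h3 : P μ = 0 := by
      have h4 := congrArg (fun Q => Q.comp (C (N : k)⁻¹ * X - C ((N : k)⁻¹ * (c : k)))) h2
      simp only [comp_assoc, zero_comp] at h4
      have h5 : (C (N : k) * X + C (c : k)).comp (C (N : k)⁻¹ * X - C ((N : k)⁻¹ * (c : k)))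
          = X := by
        rw [add_comp, mul_comp, C_comp, X_comp, C_comp, mul_sub, ← mul_assoc, ← C_mul, ← C_mul,
          ← mul_assoc, mul_inv_cancel₀ hN', C_1, one_mul, one_mul]
        ring
      rw [h5, comp_X] at h4
      exact h4
    rw [h3, eval_zero, zero_mul]
  · intro μ hμ ν hν hμν
    have h1 : μ ^ N = ν ^ N := Units.ext hμν
    have h2 : (μ * ν⁻¹) ^ N = 1 := by
      rw [mul_pow, inv_pow, h1, mul_inv_cancel]
    have h3 := hM (μ * ν⁻¹) (mul_mem (hS μ hμ) (inv_mem (hS ν hν))) h2
    exact mul_inv_eq_one.1 h3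
  · intro m
    rw [← h m, hP]
    refine Finset.sum_congr rfl fun μ _ => ?_
    rw [eval_mul, eval_C, eval_comp, eval_add, eval_mul, eval_C, eval_X, eval_C,
      Units.val_pow_eq_pow_val, Nat.cast_add, Nat.cast_mul, pow_add, pow_mul]
    ring

/-- An exponential polynomial with roots in a torsion free group is zero if it vanishes on a
progression. -/
theorem eq_zero_of_progression [CharZero k] (hM : TorFree M) {f : ℕ → k} (hf : f ∈ EP M)
    {N : ℕ} (hN : 0 < N) (c : ℕ) (h : ∀ m, f (N * m + c) = 0) : f = 0 :=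
  eq_zero_aux hN (fun μ hμ h1 => hM μ hμ N hN h1) hf c h

/-- An exponential polynomial which vanishes from some point on is zero. -/
theorem eq_zero_of_eventually [CharZero k] {f : ℕ → k} (hf : f ∈ EP M) {s₀ : ℕ}
    (h : ∀ s, s₀ ≤ s → f s = 0) : f = 0 :=
  eq_zero_aux (N := 1) Nat.one_pos (fun μ _ h1 => by simpa using h1) hf s₀
    fun m => h _ (by omega)

end Pool.Agent.Helper65.TNL
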