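import Pool.Agent.Helper65.TNL.ExpPoly

/-!
# Linear recurrences with exponential polynomials on the right hand side
-/

set_option autoImplicit false

namespace Pool.Agent.Helper65.TNL

open Finset Polynomial

variable {k : Type*} [Field k] {M : Subgroup kˣ}

/-- The operator `shift - μ`. -/
def sub (μ : k) : (ℕ → k) →ₗ[k] (ℕ → k) := shift - μ • LinearMap.id

@[simp] theorem sub_apply (μ : k) (f : ℕ → k) (s : ℕ) : sub μ f s = f (s + 1) - μ * f s := rfl

/-- `shift - μ` maps monomials to combinations of monomials with the same root. -/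
theorem sub_mono (μ ν : k) (a : ℕ) :
    sub μ (mono a ν) = (ν - μ) • mono a ν + ν • ∑ b ∈ range a, (a.choose b : k) • mono b ν := by
  funext s
  simp only [sub_apply, mono, Pi.add_apply, Pi.smul_apply, Finset.sum_apply, smul_eq_mul]
  have h : ((s : k) + 1) ^ a = ∑ b ∈ range a, (s : k) ^ b * (a.choose b : k) + (s : k) ^ a := by
    rw [add_pow, Finset.sum_range_succ]
    simp
  rw [Nat.cast_add, Nat.cast_one, h, pow_succ]
  have h2 : (∑ b ∈ range a, (a.choose b : k) * ((s : k) ^ b * ν ^ s))
      = (∑ b ∈ range a, (s : k) ^ b * (a.choose b : k)) * ν ^ s := by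
    rw [Finset.sum_mul]
    exact Finset.sum_congr rfl fun b _ => by ring
  rw [h2]
  ring

theorem sub_mem_EP {f : ℕ → k} (hf : f ∈ EP M) (μ : k) : sub μ f ∈ EP M :=
  Submodule.sub_mem _ (shift_mem_EP hf) (Submodule.smul_mem _ μ hf)

theorem sub_mem_EPe {f : ℕ → k} (hf : f ∈ EPe M) (μ : k) : sub μ f ∈ EPe M :=
  Submodule.sub_mem _ (shift_mem_EPe_iff.2 hf) (Submodule.smul_mem _ μ hf)

/-- The monomial sequences are in the image of `shift - μ`. -/
theorem exists_sub_mono [CharZero k] (μ : kˣ) (hμ : μ ∈ M) (a : ℕ) {ν : kˣ} (hν : ν ∈ M) :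
    ∃ g ∈ EP M, sub (μ : k) g = mono a (ν : k) := by
  by_cases hne : ν = μ
  · subst hne
    induction a using Nat.strong_induction_on with
    | _ a ih =>
      choose! u hu hu' using ih
      have hc : (((a + 1 : ℕ) : k) * (ν : k)) ≠ 0 :=
        mul_ne_zero (Nat.cast_ne_zero.2 (Nat.succ_ne_zero a)) ν.ne_zero
      refine ⟨(((a + 1 : ℕ) : k) * (ν : k))⁻¹ • (mono (a + 1) (ν : k)
        - (ν : k) • ∑ b ∈ range a, ((a + 1).choose b : k) • u b), ?_, ?_⟩
      · refine Submodule.smul_mem _ _ (Submodule.sub_mem _ (mono_mem _ hν)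
          (Submodule.smul_mem _ _ (Submodule.sum_mem _ fun b hb => Submodule.smul_mem _ _
            (hu b (mem_range.1 hb)))))
      · rw [map_smul, map_sub, map_smul, map_sum, sub_mono, sub_self, zero_smul, zero_add,
          Finset.sum_range_succ]
        have h1 : ∑ b ∈ range a, sub (ν : k) (((a + 1).choose b : k) • u b)
            = ∑ b ∈ range a, ((a + 1).choose b : k) • mono b (ν : k) :=
          Finset.sum_congr rfl fun b hb => by rw [map_smul, hu' b (mem_range.1 hb)]
        rw [h1, smul_add, add_sub_cancel_left, smul_smul, smul_smul]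
        have h2 : (a + 1).choose a = a + 1 := by
          rw [Nat.choose_succ_self_right]
        rw [h2]
        have h3 : (((a + 1 : ℕ) : k) * (ν : k))⁻¹ * ((ν : k) * ((a + 1 : ℕ) : k)) = 1 := by
          rw [mul_comm (ν : k)]
          exact inv_mul_cancel₀ hc
        rw [mul_assoc, h3, one_smul]
  · have hc : (ν : k) - (μ : k) ≠ 0 := sub_ne_zero.2 fun h => hne (Units.ext h)
    induction a using Nat.strong_induction_on with
    | _ a ih =>
      choose! u hu hu' using ih
      refine ⟨((ν : k) - (μ : k))⁻¹ • (mono a (ν : k)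
        - (ν : k) • ∑ b ∈ range a, (a.choose b : k) • u b), ?_, ?_⟩
      · refine Submodule.smul_mem _ _ (Submodule.sub_mem _ (mono_mem _ hν)
          (Submodule.smul_mem _ _ (Submodule.sum_mem _ fun b hb => Submodule.smul_mem _ _
            (hu b (mem_range.1 hb)))))
      · rw [map_smul, map_sub, map_smul, map_sum, sub_mono]
        have h1 : ∑ b ∈ range a, sub (μ : k) ((a.choose b : k) • u b)
            = ∑ b ∈ range a, (a.choose b : k) • mono b (ν : k) :=
          Finset.sum_congr rfl fun b hb => by rw [map_smul, hu' b (mem_range.1 hb)]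
        rw [h1, add_sub_cancel_right, smul_smul, inv_mul_cancel₀ hc, one_smul]

/-- `shift - μ` is onto on exponential polynomials. -/
theorem exists_sub_eq [CharZero k] {μ : kˣ} (hμ : μ ∈ M) {f : ℕ → k} (hf : f ∈ EP M) :
    ∃ g ∈ EP M, sub (μ : k) g = f := by
  induction hf using Submodule.span_induction with
  | mem x hx =>
    obtain ⟨a, ν, hν, rfl⟩ := hx
    exact exists_sub_mono μ hμ a hν
  | zero => exact ⟨0, Submodule.zero_mem _, map_zero _⟩
  | add y z _ _ hy hz =>
    obtain ⟨g, hg, rfl⟩ := hy
    obtain ⟨g', hg', rfl⟩ := hz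
    exact ⟨g + g', Submodule.add_mem _ hg hg', map_add _ _ _⟩
  | smul c y _ hy =>
    obtain ⟨g, hg, rfl⟩ := hy
    exact ⟨c • g, Submodule.smul_mem _ c hg, map_smul _ _ _⟩

theorem of_sub_mem [CharZero k] {μ : kˣ} (hμ : μ ∈ M) {f : ℕ → k}
    (h : sub (μ : k) f ∈ EPe M) : f ∈ EPe M := by
  obtain ⟨g, hg, s₀, h⟩ := h
  obtain ⟨u, hu, rfl⟩ := exists_sub_eq hμ hg
  have hne : (μ : k) ≠ 0 := μ.ne_zero
  have h1 : ∀ t, f (s₀ + t) - u (s₀ + t) = (μ : k) ^ t * (f s₀ - u s₀) := by
    intro t
    induction t with
    | zero => simp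
    | succ t ih =>
      have h2 := h (s₀ + t) (by omega)
      simp only [sub_apply] at h2
      have h3 : f (s₀ + (t + 1)) - u (s₀ + (t + 1)) = (μ : k) * (f (s₀ + t) - u (s₀ + t)) := by
        rw [← add_assoc]
        linear_combination h2
      rw [h3, ih, pow_succ]
      ring
  refine ⟨u + ((f s₀ - u s₀) * ((μ : k) ^ s₀)⁻¹) • fun s => (μ : k) ^ s,
    Submodule.add_mem _ hu (Submodule.smul_mem _ _ (pow_mem_EP hμ)), s₀, fun s hs => ?_⟩
  obtain ⟨t, rfl⟩ : ∃ t, s = s₀ + t := ⟨s - s₀, by omega⟩
  have h2 := h1 t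
  have h3 : (μ : k) ^ s₀ ≠ 0 := pow_ne_zero _ hne
  simp only [Pi.add_apply, Pi.smul_apply, smul_eq_mul, pow_add]
  have h4 : (f s₀ - u s₀) * ((μ : k) ^ s₀)⁻¹ * ((μ : k) ^ s₀ * (μ : k) ^ t)
      = (μ : k) ^ t * (f s₀ - u s₀) := by
    field_simp
  rw [h4, ← h2]
  ring

/-- The value `α` is zero or in the group. -/
def Root (M : Subgroup kˣ) (α : k) : Prop := α = 0 ∨ ∃ μ ∈ M, (μ : k) = α

theorem of_sub_mem' [CharZero k] {α : k} (hα : Root M α) {f : ℕ → k}
    (h : sub α f ∈ EPe M) : f ∈ EPe M := by
  rcases hα with rfl | ⟨μ, hμ, rfl⟩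
  · have e : sub (0 : k) f = shift f := by
      funext s
      simp
    rw [e] at h
    exact shift_mem_EPe_iff.1 h
  · exact of_sub_mem hμ h

theorem aeval_mem_EPe (P : k[X]) {f : ℕ → k} (hf : f ∈ EPe M) :
    aeval (shift (k := k)) P f ∈ EPe M := by
  induction P using Polynomial.induction_on' with
  | add P Q hP hQ => rw [map_add]; exact Submodule.add_mem _ hP hQ
  | monomial n c =>
    rw [aeval_monomial]
    change (algebraMap k (Module.End k (ℕ → k)) c) ((shift ^ n) f) ∈ EPe M
    rw [Module.algebraMap_end_apply]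
    apply Submodule.smul_mem
    induction n with
    | zero => exact hf
    | succ n ih =>
      rw [pow_succ']
      exact shift_mem_EPe_iff.2 ih

/-- If a product of factors `X - α` with all `α` zero or in the group maps the sequence to an
exponential polynomial, the sequence is an exponential polynomial. -/
theorem of_aeval_prod_mem [CharZero k] (m : Multiset k) (hm : ∀ α ∈ m, Root M α) (f : ℕ → k)
    (h : aeval (shift (k := k)) (m.map fun α => X - C α).prod f ∈ EPe M) : f ∈ EPe M := by
  induction m using Multiset.induction_on generalizing f with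
  | empty =>
    simpa using h
  | cons α m ih =>
    rw [Multiset.map_cons, Multiset.prod_cons, mul_comm, map_mul] at h
    have e : aeval (shift (k := k)) (X - C α) = sub α := by
      rw [map_sub, aeval_X, aeval_C]
      rfl
    rw [e] at h
    change aeval (shift (k := k)) (m.map fun α => X - C α).prod (sub α f) ∈ EPe M at h
    exact of_sub_mem' (hm α (Multiset.mem_cons_self α m))
      (ih (fun β hβ => hm β (Multiset.mem_cons_of_mem hβ)) _ h)

/-- **Linear recurrences.** If all eigenvalues of the matrix `A` are zero or in the group, the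
solutions of `v (s + 1) = A v s + f s` are exponential polynomials from some point on, provided
the `f s` are. -/
theorem solve [CharZero k] [IsAlgClosed k] {ι : Type*} [Fintype ι] [DecidableEq ι]
    (A : Matrix ι ι k) (hA : ∀ α ∈ A.charpoly.roots, Root M α) (v f : ℕ → ι → k)
    (hf : ∀ i, (fun s => f s i) ∈ EPe M) (s₀ : ℕ)
    (h : ∀ s, s₀ ≤ s → v (s + 1) = A.mulVec (v s) + f s) (i : ι) :
    (fun s => v s i) ∈ EPe M := by
  -- the sequences of the coordinates
  set w : ι → ℕ → k := fun j s => v s j with hw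
  have h1 : ∀ l, (∑ j, aeval (shift (k := k)) (A.charmatrix l j) (w j)) ∈ EPe M := by
    intro l
    obtain ⟨g, hg, s₁, hs₁⟩ := hf l
    refine ⟨g, hg, max s₀ s₁, fun s hs => ?_⟩
    have e1 : ∀ j, aeval (shift (k := k)) (A.charmatrix l j) (w j) s
        = (if l = j then v (s + 1) j else 0) - A l j * v s j := by
      intro j
      by_cases hlj : l = j
      · subst hlj
        rw [Matrix.charmatrix_apply_eq, map_sub, aeval_X, aeval_C, if_pos rfl]
        rfl
      · rw [Matrix.charmatrix_apply_ne _ _ _ hlj, map_neg, aeval_C, if_neg hlj, zero_sub]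
        rfl
    rw [Finset.sum_apply]
    rw [Finset.sum_congr rfl fun j _ => e1 j, Finset.sum_sub_distrib]
    simp only [Finset.sum_ite_eq, Finset.mem_univ, if_true]
    have h2 := congrFun (h s (le_trans (le_max_left _ _) hs)) l
    rw [Pi.add_apply, Matrix.mulVec, dotProduct] at h2
    rw [h2, add_sub_cancel_left]
    exact hs₁ s (le_trans (le_max_right _ _) hs)
  have h2 : aeval (shift (k := k)) A.charpoly (w i) ∈ EPe M := by
    have h3 : aeval (shift (k := k)) A.charpoly (w i)
        = ∑ l, aeval (shift (k := k)) (A.charmatrix.adjugate i l)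
            (∑ j, aeval (shift (k := k)) (A.charmatrix l j) (w j)) := by
      have e1 : ∀ l, aeval (shift (k := k)) (A.charmatrix.adjugate i l)
            (∑ j, aeval (shift (k := k)) (A.charmatrix l j) (w j))
          = ∑ j, aeval (shift (k := k)) (A.charmatrix.adjugate i l * A.charmatrix l j) (w j) := by
        intro l
        rw [map_sum]
        refine Finset.sum_congr rfl fun j _ => ?_
        rw [map_mul]
        rfl
      rw [Finset.sum_congr rfl fun l _ => e1 l, Finset.sum_comm]
      have e2 : ∀ j, ∑ l, aeval (shift (k := k))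
            (A.charmatrix.adjugate i l * A.charmatrix l j) (w j)
          = aeval (shift (k := k)) ((A.charmatrix.adjugate * A.charmatrix) i j) (w j) := by
        intro j
        rw [Matrix.mul_apply, map_sum, LinearMap.sum_apply]
      rw [Finset.sum_congr rfl fun j _ => e2 j, Matrix.adjugate_mul]
      rw [Finset.sum_eq_single i]
      · rw [Matrix.smul_apply, Matrix.one_apply_eq, smul_eq_mul, mul_one]
        rfl
      · intro j _ hj
        rw [Matrix.smul_apply, Matrix.one_apply_ne (Ne.symm hj), smul_zero, map_zero]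
        rfl
      · intro hi
        exact absurd (Finset.mem_univ i) hi
    rw [h3]
    exact Submodule.sum_mem _ fun l _ => aeval_mem_EPe _ (h1 l)
  have h3 : A.charpoly = (A.charpoly.roots.map fun α => X - C α).prod := by
    have h4 := (IsAlgClosed.splits A.charpoly).eq_prod_roots_of_monic A.charpoly_monic
    exact h4
  rw [h3] at h2
  exact of_aeval_prod_mem _ hA _ h2

end Pool.Agent.Helper65.TNL
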